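import Pool.Agent.MWK.Stmts

/-!
# Squad MWK, row CRX: reading a word with a chain and a delayed letter
-/

set_option autoImplicit false

namespace Pool.Agent.MWK.H5

open Pool.Agent.Helper14_MV Pool.Agent.Helper2_MV
open Pool.Agent.MWK

/-- the image of letters which are dead over `P'` is free -/
theorem free_step (hfre : FreStmt) {θ : FIC} (hθ : Kc θ) (g : ℕ → List ℕ) (P' B Q : List ℕ)
    (h : ∀ z ∈ B, g z = [] ∨ ∀ l ∈ g z, 2 ≤ P'.count l) :
    RR θ (P' ++ B.flatMap g ++ Q) (P' ++ Q) := by
  refine hfre θ hθ P' (B.flatMap g) Q fun l hl => ?_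
  obtain ⟨z, hz, hlz⟩ := List.mem_flatMap.1 hl
  rcases h z hz with h1 | h1
  · rw [h1] at hlz
    simp at hlz
  · exact h1 l hlz

theorem dead_mono {P' R : List ℕ} {l : ℕ} (h : 2 ≤ P'.count l) : 2 ≤ (P' ++ R).count l := by
  rw [List.count_append]
  omega

/-- **CRX** -/
theorem crx (hfre : FreStmt) (hcrd : CrdStmt) : CrxStmt := by
  intro θ hθ g d cs
  induction cs with
  | nil =>
    intro k p B P' hch hB _ _
    have hch' : (∀ z ∈ p, z ∉ B) ∧ d ∉ B := by
      cases k <;> exact hch
    have h := free_step hfre hθ g P' B [] (fun z hz => by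
      rcases hB z hz with h1 | h1 | h1 | h1 | h1
      · exact Or.inl h1
      · exact absurd (h1 ▸ hz) hch'.2
      · exact absurd hz (hch'.1 z h1)
      · simp at h1
      · exact Or.inr h1)
    simpa using h
  | cons c cs ih =>
    intro k p B P' hch hB hok hd
    obtain ⟨B1, B2, hBeq, hp1, hc1, hcs1, hd1, hrest⟩ :
        ∃ B1 B2, B = B1 ++ c :: B2 ∧ (∀ z ∈ p, z ∉ B1) ∧ c ∉ B1 ∧
          (∀ z ∈ cs, z ∉ B1) ∧ d ∉ B1 ∧ (match k with
            | 0 => Chb [c] cs B2
            | k + 1 => Chd d k [c] cs B2) := by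
      cases k with
      | zero => exact hch
      | succ k => exact hch
    have hok1 : ∀ z ∈ p.flatMap g, 2 ≤ (P' ++ g c).count z := hok.1
    have hok2 : Ok (P' ++ g c) (g c) (cs.map g) := hok.2
    have hfree : RR θ (P' ++ B.flatMap g) (P' ++ g c ++ B2.flatMap g) := by
      have h := free_step hfre hθ g P' B1 (g c ++ B2.flatMap g) (fun z hz => by
        have hzB : z ∈ B := by
          rw [hBeq]
          exact List.mem_append_left _ hz
        rcases hB z hzB with h1 | h1 | h1 | h1 | h1
        · exact Or.inl h1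
        · exact absurd (h1 ▸ hz) hd1
        · exact absurd hz (hp1 z h1)
        · rcases List.mem_cons.1 h1 with h2 | h2
          · exact absurd (h2 ▸ hz) hc1
          · exact absurd hz (hcs1 z h2)
        · exact Or.inr h1)
      have e : P' ++ B.flatMap g = P' ++ B1.flatMap g ++ (g c ++ B2.flatMap g) := by
        rw [hBeq]
        simp
      rw [e]
      simpa using h
    have hmem : ∀ z ∈ B2, g z = [] ∨ z = d ∨ z ∈ [c] ∨ z ∈ cs ∨
        ∀ l ∈ g z, 2 ≤ (P' ++ g c).count l := by
      intro z hz
      have hzB : z ∈ B := by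
        rw [hBeq]
        exact List.mem_append_right _ (List.mem_cons_of_mem _ hz)
      rcases hB z hzB with h1 | h1 | h1 | h1 | h1
      · exact Or.inl h1
      · exact Or.inr (Or.inl h1)
      · refine Or.inr (Or.inr (Or.inr (Or.inr fun l hl => ?_)))
        exact hok1 l (List.mem_flatMap.2 ⟨z, h1, hl⟩)
      · rcases List.mem_cons.1 h1 with h2 | h2
        · exact Or.inr (Or.inr (Or.inl (by simp [h2])))
        · exact Or.inr (Or.inr (Or.inr (Or.inl h2)))
      · exact Or.inr (Or.inr (Or.inr (Or.inr fun l hl => dead_mono (h1 l hl))))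
    have hok3 : Ok (P' ++ g c) ([c].flatMap g) (cs.map g) := by
      have e : [c].flatMap g = g c := by simp
      rw [e]
      exact hok2
    have hgoal : RR θ (P' ++ g c ++ B2.flatMap g) (P' ++ g c ++ (cs.map g).flatten) := by
      cases k with
      | zero =>
        refine hcrd θ hθ g cs [c] B2 (P' ++ g c) hrest (fun z hz => ?_) hok3
        have hdd := hd (by simp)
        rcases hmem z hz with h1 | h1 | h1 | h1 | h1
        · exact Or.inl h1
        · refine Or.inr (Or.inr (Or.inr fun l hl => ?_))
          have h2 := hdd l (h1 ▸ hl)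
          simpa using h2
        · exact Or.inr (Or.inl h1)
        · exact Or.inr (Or.inr (Or.inl h1))
        · exact Or.inr (Or.inr (Or.inr h1))
      | succ k =>
        refine ih k [c] B2 (P' ++ g c) hrest hmem hok3 (fun hk l hl => ?_)
        have h2 := hd (by simpa using hk) l hl
        simpa using h2
    have hfin : RR θ (P' ++ B.flatMap g) (P' ++ g c ++ (cs.map g).flatten) :=
      θ.trans hfree hgoal
    rw [List.map_cons, List.flatten_cons, ← List.append_assoc]
    exact hfin

end Pool.Agent.MWK.H5
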